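import Pool.Agent.H5.OR.Targets4

/-!
# Row QN: numbers of characters of the groups `⟨x, a | x^m = a^n⟩`
-/

set_option autoImplicit false

open scoped Classical

namespace Pool.Agent.H7.ORS

open ORg

private theorem card_roots {m : ℤ} (hm : 2 ≤ |m|) :
    Nat.card {g : ℂˣ // g ^ m = 1} = m.natAbs := by
  have h0 : m.natAbs ≠ 0 := by
    intro h
    rw [Int.natAbs_eq_zero] at h
    rw [h, abs_zero] at hm
    omega
  have : NeZero m.natAbs := ⟨h0⟩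
  rw [← Complex.card_rootsOfUnity m.natAbs]
  refine Nat.card_congr (Equiv.subtypeEquivRight fun g => ?_)
  rw [mem_rootsOfUnity, pow_natAbs_eq_one]

private theorem card_roots' {m : ℤ} (hm : 2 ≤ |m|) :
    Nat.card {g : ℂˣ // g ^ m = 1 ∧ g ≠ 1} = m.natAbs - 1 := by
  have h1 := card_roots hm
  have h2 : Nat.card {g : ℂˣ // g ^ m = 1} = ({g : ℂˣ | g ^ m = 1} : Set ℂˣ).ncard := rfl
  have h3 : Nat.card {g : ℂˣ // g ^ m = 1 ∧ g ≠ 1} =
      ({g : ℂˣ | g ^ m = 1} \ {1} : Set ℂˣ).ncard := rfl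
  rw [h3, Set.ncard_sdiff_singleton_of_mem, ← h2, h1]
  exact one_zpow m

private theorem card_pairs (A B : ℂˣ → Prop) :
    Nat.card {p : ℂˣ × ℂˣ // A p.1 ∧ B p.2} = Nat.card {g // A g} * Nat.card {h // B h} := by
  rw [Nat.card_congr Equiv.subtypeProdEquivProd, Nat.card_prod]

private theorem card_char (QH : T_QH) {m n : ℤ} (P : (TP m n →* ℂˣ) → Prop)
    (R : ℂˣ × ℂˣ → Prop) (h1 : ∀ ρ, P ρ ↔ R (ρ (tg true), ρ (tg false)))
    (h2 : ∀ p, R p → p.1 ^ m = p.2 ^ n) : Nat.card {ρ // P ρ} = Nat.card {p // R p} := by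
  refine Nat.card_congr (Equiv.ofBijective
    (fun ρ : {ρ // P ρ} => (⟨(ρ.1 (tg true), ρ.1 (tg false)), (h1 _).1 ρ.2⟩ : {p // R p})) ⟨?_, ?_⟩)
  · intro ρ ρ' h
    have h3 := Subtype.mk.inj h
    rw [Prod.mk.injEq] at h3
    exact Subtype.ext ((QH m n).2.2 ℂˣ _ _ h3.1 h3.2)
  · rintro ⟨⟨g, h⟩, hR⟩
    obtain ⟨f, hf1, hf2⟩ := (QH m n).2.1 ℂˣ g h (h2 _ hR)
    refine ⟨⟨f, (h1 f).2 (by rw [hf1, hf2]; exact hR)⟩, ?_⟩
    exact Subtype.ext (Prod.ext hf1 hf2)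

private theorem exists_prim {m : ℤ} (hm : 2 ≤ |m|) :
    ∃ ξ : ℂˣ, ξ ^ m = 1 ∧ ξ ≠ 1 ∧ ∀ d : ℕ, ξ ^ d = 1 → m.natAbs ∣ d := by
  have h0 : m.natAbs ≠ 0 := by
    intro h
    rw [Int.natAbs_eq_zero] at h
    rw [h, abs_zero] at hm
    omega
  have h1 : 1 < m.natAbs := by
    rw [Int.abs_eq_natAbs] at hm
    omega
  have h2 := Complex.isPrimitiveRoot_exp m.natAbs h0
  have h3 := h2.isUnit_unit h0
  refine ⟨_, ?_, h3.ne_one h1, fun d hd => h3.dvd_of_pow_eq_one d hd⟩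
  rw [← pow_natAbs_eq_one]
  exact h3.pow_eq_one

/-- the pair of values of a character of finite order -/
private theorem val_one {m n : ℤ} {x a : ℂˣ} (h : x ^ m = a ^ n) (hm : 2 ≤ |m|) (hn : 2 ≤ |n|)
    (hx : x ^ Nat.lcm m.natAbs n.natAbs = 1) (ha : a ^ Nat.lcm m.natAbs n.natAbs = 1) :
    x ^ m = 1 := by
  have hM : 0 < m.natAbs := by
    rw [Int.abs_eq_natAbs] at hm
    omega
  obtain ⟨c, hc⟩ := Nat.dvd_lcm_left m.natAbs n.natAbs
  obtain ⟨d, hd⟩ := Nat.dvd_lcm_right m.natAbs n.natAbs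
  have h1 : (x ^ m) ^ c = 1 := by
    rw [← zpow_natCast, ← zpow_mul, ← pow_natAbs_eq_one, Int.natAbs_mul, Int.natAbs_natCast, ← hc]
    exact hx
  have h2 : (x ^ m) ^ d = 1 := by
    rw [h, ← zpow_natCast, ← zpow_mul, ← pow_natAbs_eq_one, Int.natAbs_mul, Int.natAbs_natCast,
      ← hd]
    exact ha
  have h3 : Nat.gcd c d = 1 := by
    have h4 := Nat.gcd_mul_lcm m.natAbs n.natAbs
    have hg : 0 < Nat.gcd m.natAbs n.natAbs := Nat.gcd_pos_of_pos_left _ hM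
    have h5 : n.natAbs = Nat.gcd m.natAbs n.natAbs * c := by
      apply Nat.eq_of_mul_eq_mul_left hM
      rw [← h4, hc]
      ring
    have h6 : m.natAbs = Nat.gcd m.natAbs n.natAbs * d := by
      have hN : 0 < n.natAbs := by
        rw [Int.abs_eq_natAbs] at hn
        omega
      apply Nat.eq_of_mul_eq_mul_left hN
      rw [mul_comm n.natAbs m.natAbs, ← h4, hd]
      ring
    have h7 : Nat.gcd m.natAbs n.natAbs = Nat.gcd m.natAbs n.natAbs * Nat.gcd d c := by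
      rw [← Nat.gcd_mul_left, ← h5, ← h6]
    have h8 : Nat.gcd d c = 1 := by
      apply Nat.eq_of_mul_eq_mul_left hg
      rw [← h7, mul_one]
    rw [Nat.gcd_comm]
    exact h8
  have h4 := pow_gcd_eq_one.2 ⟨h1, h2⟩
  rw [h3, pow_one] at h4
  exact h4

theorem pf_QN (QH : T_QH) (QJ : T_QJ) : T_QN := by
  intro m n hm hn
  have hm0 : m ≠ 0 := by
    rintro rfl
    rw [abs_zero] at hm
    omega
  have hn0 : n ≠ 0 := by
    rintro rfl
    rw [abs_zero] at hn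
    omega
  have hrel : ∀ ρ : TP m n →* ℂˣ, ρ (tg true) ^ m = ρ (tg false) ^ n := by
    intro ρ
    rw [← map_zpow, ← map_zpow, (QH m n).1]
  have hpw : ∀ (ρ : TP m n →* ℂˣ) (d : ℕ), ρ ^ d = 1 ↔
      ρ (tg true) ^ d = 1 ∧ ρ (tg false) ^ d = 1 := by
    intro ρ d
    constructor
    · intro h
      constructor
      · rw [← MonoidHom.pow_apply, h, MonoidHom.one_apply]
      · rw [← MonoidHom.pow_apply, h, MonoidHom.one_apply]
    · rintro ⟨h1, h2⟩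
      refine (QH m n).2.2 ℂˣ _ _ ?_ ?_
      · rw [MonoidHom.pow_apply, h1, MonoidHom.one_apply]
      · rw [MonoidHom.pow_apply, h2, MonoidHom.one_apply]
  have hJ : ∀ ρ : TP m n →* ℂˣ, (ρ ≠ 1 ∧ Jmp ρ) ↔
      ((ρ (tg true) ^ m = 1 ∧ ρ (tg true) ≠ 1) ∧ (ρ (tg false) ^ n = 1 ∧ ρ (tg false) ≠ 1)) := by
    intro ρ
    constructor
    · rintro ⟨h1, h2⟩
      obtain ⟨a1, a2, a3, a4⟩ := (QJ m n ρ hm0 hn0 h1).1 h2
      exact ⟨⟨a1, a2⟩, a3, a4⟩
    · rintro ⟨⟨a1, a2⟩, a3, a4⟩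
      have h1 : ρ ≠ 1 := by
        rintro rfl
        exact a2 rfl
      exact ⟨h1, (QJ m n ρ hm0 hn0 h1).2 ⟨a1, a2, a3, a4⟩⟩
  refine ⟨?_, ?_, ?_, ?_, ?_⟩
  · rw [card_char QH (fun ρ => ρ ≠ 1 ∧ Jmp ρ)
      (fun p => (p.1 ^ m = 1 ∧ p.1 ≠ 1) ∧ (p.2 ^ n = 1 ∧ p.2 ≠ 1)) hJ
      (fun p hp => by rw [hp.1.1, hp.2.1]),
      card_pairs (fun g => g ^ m = 1 ∧ g ≠ 1) (fun h => h ^ n = 1 ∧ h ≠ 1), card_roots' hm,
      card_roots' hn]
  · intro d
    constructor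
    · intro h
      obtain ⟨ξ, x1, x2, x3⟩ := exists_prim hm
      obtain ⟨α, y1, y2, y3⟩ := exists_prim hn
      obtain ⟨f, hf1, hf2⟩ := (QH m n).2.1 ℂˣ ξ α (by rw [x1, y1])
      obtain ⟨a1, a2⟩ := (hJ f).2 (by rw [hf1, hf2]; exact ⟨⟨x1, x2⟩, y1, y2⟩)
      have h1 := (hpw f d).1 (h f a1 a2)
      rw [hf1, hf2] at h1
      exact Nat.lcm_dvd (x3 d h1.1) (y3 d h1.2)
    · intro hd ρ h1 h2
      obtain ⟨⟨a1, _⟩, a3, _⟩ := (hJ ρ).1 ⟨h1, h2⟩
      rw [← pow_natAbs_eq_one] at a1 a3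
      rw [hpw]
      obtain ⟨u, hu⟩ := (Nat.dvd_lcm_left m.natAbs n.natAbs).trans hd
      obtain ⟨v, hv⟩ := (Nat.dvd_lcm_right m.natAbs n.natAbs).trans hd
      constructor
      · rw [hu, pow_mul, a1, one_pow]
      · rw [hv, pow_mul, a3, one_pow]
  · rw [card_char QH (fun ρ => ρ ^ Nat.lcm m.natAbs n.natAbs = 1)
      (fun p => p.1 ^ m = 1 ∧ p.2 ^ n = 1) ?_ (fun p hp => by rw [hp.1, hp.2]),
      card_pairs (fun g => g ^ m = 1) (fun h => h ^ n = 1), card_roots hm, card_roots hn]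
    intro ρ
    rw [hpw]
    constructor
    · rintro ⟨h1, h2⟩
      have h3 := val_one (hrel ρ) hm hn h1 h2
      exact ⟨h3, by rw [← hrel ρ]; exact h3⟩
    · rintro ⟨a1, a3⟩
      dsimp only at a1 a3
      rw [← pow_natAbs_eq_one] at a1 a3
      obtain ⟨u, hu⟩ := Nat.dvd_lcm_left m.natAbs n.natAbs
      obtain ⟨v, hv⟩ := Nat.dvd_lcm_right m.natAbs n.natAbs
      constructor
      · rw [hu, pow_mul, a1, one_pow]
      · rw [hv, pow_mul, a3, one_pow]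
  · rw [card_char QH (fun ρ => ρ (tg true) = 1)
      (fun p => p.1 = 1 ∧ p.2 ^ n = 1) ?_ (fun p hp => by rw [hp.1, hp.2, one_zpow]),
      card_pairs (fun g => g = 1) (fun h => h ^ n = 1), card_roots hn, Nat.card_unique, one_mul]
    intro ρ
    constructor
    · intro h
      refine ⟨h, ?_⟩
      dsimp only
      rw [← hrel ρ, h, one_zpow]
    · intro h
      exact h.1
  · rw [card_char QH (fun ρ => ρ (tg false) = 1)
      (fun p => p.1 ^ m = 1 ∧ p.2 = 1) ?_ (fun p hp => by rw [hp.1, hp.2, one_zpow]),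
      card_pairs (fun g => g ^ m = 1) (fun h => h = 1), card_roots hm, Nat.card_unique, mul_one]
    intro ρ
    constructor
    · intro h
      refine ⟨?_, h⟩
      dsimp only
      rw [hrel ρ, h, one_zpow]
    · intro h
      exact h.2

end Pool.Agent.H7.ORS
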